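import Pool.Agent.W295.NL.Stm

set_option autoImplicit false

namespace Pool.Agent.W306.NL.AX

open Pool.Agent.W295.NL

theorem main : S_AX := by
  intro n q hn hn0 hq κ F hκ hF
  obtain ⟨p, hp⟩ := hq
  have hqz : ((q : ℕ) : ZMod q) = 0 := ZMod.natCast_self q
  have hq' : (2 * (p : ZMod q) + 1) = 0 := by
    have : ((2 * p + 1 : ℕ) : ZMod q) = 0 := by rw [← hp]; exact hqz
    push_cast at this
    exact this
  set half : ZMod q := (p : ZMod q) + 1 with hhalf
  have h2 : 2 * half = 1 := by
    rw [hhalf]
    linear_combination hq'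
  set w : ℕ → ZMod q := fun t => if κ t = 2 then -2 else 1 with hw
  have hwn : ∀ t, w (t + n) = w t := fun t => by simp only [hw, hκ t]
  set g : ℕ → ZMod q := fun t => F t - F (t + n) with hg
  have hgn : ∀ t, g (t + n) = -g t := fun t => by
    simp only [hg]
    rw [show t + n + n = t + 2 * n by ring, hF]
    ring
  obtain ⟨U, hU1, hU2⟩ : ∃ U : ℕ → ZMod q, (∀ t, U t + U (t + 1) = g t) ∧
      ∀ t, U (t + n) = -U t := by
    set U0 : ℕ → ZMod q := fun t => Nat.rec 0 (fun t x => g t - x) t with hU0
    have h0 : U0 0 = 0 := rfl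
    have h1 : ∀ t, U0 (t + 1) = g t - U0 t := fun t => rfl
    set u : ZMod q := -half * U0 n with hu
    refine ⟨fun t => U0 t + (-1) ^ t * u, ?_, ?_⟩
    · intro t
      simp only [h1, pow_succ]
      ring
    · have hstep : ∀ t, U0 t + (-1) ^ t * u + (U0 (t + 1) + (-1) ^ (t + 1) * u) = g t := by
        intro t
        rw [h1, pow_succ]
        ring
      have hV : ∀ t, (U0 (t + n) + (-1) ^ (t + n) * u) + (U0 t + (-1) ^ t * u) = 0 := by
        intro t
        induction t with
        | zero =>
          rw [h0, zero_add, hn.neg_one_pow, pow_zero, hu]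
          linear_combination (-(U0 n)) * h2
        | succ t ih =>
          have e1 := hstep t
          have e2 := hstep (t + n)
          rw [show t + 1 + n = t + n + 1 by ring]
          have e3 := hgn t
          linear_combination e1 + e2 + e3 - ih
      intro t
      exact eq_neg_of_add_eq_zero_left (hV t)
  set G : ℕ → ZMod q := fun t => U t + half * w t with hG
  set A : ℕ → ZMod q := fun t => ∑ i ∈ Finset.range (t / n), G (t % n + n * i) with hA
  have hAn : ∀ t, A (t + n) = A t + G t := by
    intro t
    simp only [hA]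
    rw [Nat.add_div_right t hn0, Nat.add_mod_right, Finset.sum_range_succ, Nat.mod_add_div]
  have hA2 : ∀ t, A (t + 2 * n) = A t + w t := by
    intro t
    rw [show t + 2 * n = t + n + n by ring, hAn, hAn]
    simp only [hG, hU2, hwn]
    linear_combination (w t) * h2
  have hw2 : ∀ t, w (t + 2 * n) = w t := fun t => by
    rw [show t + 2 * n = t + n + n by ring, hwn, hwn]
  have hAm : ∀ m t, A (t + 2 * n * m) = A t + m * w t := by
    intro m
    induction m with
    | zero => intro t; simp
    | succ m ih =>
      intro t
      rw [show t + 2 * n * (m + 1) = (t + 2 * n) + 2 * n * m by ring, ih, hA2, hw2]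
      push_cast
      ring
  have hAq : ∀ t, A (t + n * q) = A t + U t := by
    intro t
    have : t + n * q = (t + n) + 2 * n * p := by rw [hp]; ring
    rw [this, hAm, hAn, hwn]
    simp only [hG, hhalf]
    linear_combination (w t) * hq'
  refine ⟨A, fun t => hA2 t, ?_⟩
  intro t
  rw [hAq, hAq]
  have := hU1 t
  simp only [hg] at this
  linear_combination this

end Pool.Agent.W306.NL.AX
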